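import Mathlib

/-!
LUR data (in the exact form used by the frozen statement S06085) pass from `X` to `Y` when finitely
many bounded operators `Y → X` and finitely many functionals together dominate the norm of `Y`.
-/

set_option autoImplicit false
open Filter Topology

namespace Pool.Agent.H41.LurTransfer

/-- An equivalent locally uniformly rotund norm, in the form of the frozen statement S06085. -/
def LURdata (X : Type) [NormedAddCommGroup X] [NormedSpace ℝ X] : Prop :=
  ∃ N : X → ℝ, (∀ x y : X, N (x + y) ≤ N x + N y) ∧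
    (∀ (c : ℝ) (x : X), N (c • x) = |c| * N x) ∧
    (∃ a b : ℝ, 0 < a ∧ 0 < b ∧ ∀ x : X, a * ‖x‖ ≤ N x ∧ N x ≤ b * ‖x‖) ∧
    ∀ (x : X) (u : ℕ → X),
      Tendsto (fun n : ℕ => 2 * N x ^ 2 + 2 * N (u n) ^ 2 - N (x + u n) ^ 2) atTop (𝓝 0) →
      Tendsto (fun n : ℕ => N (u n - x)) atTop (𝓝 0)

variable {X Y : Type} [NormedAddCommGroup X] [NormedSpace ℝ X]
  [NormedAddCommGroup Y] [NormedSpace ℝ Y]

/-- Minkowski for finite sums of squares. -/
lemma sqrt_minkowski {ι : Type} [Fintype ι] (a b c : ι → ℝ)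
    (hc : ∀ i, 0 ≤ c i) (h : ∀ i, c i ≤ a i + b i) :
    Real.sqrt (∑ i, c i ^ 2) ≤ Real.sqrt (∑ i, a i ^ 2) + Real.sqrt (∑ i, b i ^ 2) := by
  have h1 : Real.sqrt (∑ i, c i ^ 2) ≤ Real.sqrt (∑ i, (a i + b i) ^ 2) := by
    apply Real.sqrt_le_sqrt
    apply Finset.sum_le_sum
    intro i _
    have := hc i
    have := h i
    nlinarith
  have h2 : Real.sqrt (∑ i, (a i + b i) ^ 2) ≤
      Real.sqrt (∑ i, a i ^ 2) + Real.sqrt (∑ i, b i ^ 2) := by
    have h3 := norm_add_le (WithLp.toLp 2 a : EuclideanSpace ℝ ι) (WithLp.toLp 2 b)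
    simp only [EuclideanSpace.norm_eq, PiLp.add_apply, Real.norm_eq_abs, sq_abs] at h3
    exact h3
  exact h1.trans h2

/-- Transfer through finitely many operators and finitely many functionals. -/
theorem lur_of_maps {k d : ℕ} (T : Fin k → Y →L[ℝ] X) (g : Fin d → Y →L[ℝ] ℝ) (C : ℝ)
    (hC : ∀ y, ‖y‖ ≤ C * (∑ j, ‖T j y‖ + ∑ i, |g i y|)) (hX : LURdata X) : LURdata Y := by
  obtain ⟨N, hadd, hsmul, ⟨a, b, ha, hb, hab⟩, hlur⟩ := hX
  have hN0 : ∀ x, 0 ≤ N x := fun x => le_trans (by positivity) (hab x).1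
  -- one family of seminorms on `Y`
  let p : (Fin k ⊕ Fin d) → Y → ℝ := fun s y => Sum.elim (fun j => N (T j y)) (fun i => |g i y|) s
  have hp0 : ∀ s y, 0 ≤ p s y := by
    rintro (j | i) y
    · exact hN0 _
    · exact abs_nonneg _
  have hpadd : ∀ s y z, p s (y + z) ≤ p s y + p s z := by
    rintro (j | i) y z
    · simp only [p, Sum.elim_inl, map_add]; exact hadd _ _
    · simp only [p, Sum.elim_inr, map_add]; exact abs_add_le _ _
  have hpsmul : ∀ s (c : ℝ) y, p s (c • y) = |c| * p s y := by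
    rintro (j | i) c y
    · simp only [p, Sum.elim_inl, map_smul]; exact hsmul _ _
    · simp only [p, Sum.elim_inr, map_smul, smul_eq_mul]; exact abs_mul _ _
  have hpbd : ∃ B : ℝ, 0 ≤ B ∧ ∀ s y, p s y ≤ B * ‖y‖ := by
    refine ⟨b * (∑ j, ‖T j‖) + ∑ i, ‖g i‖, by positivity, ?_⟩
    rintro (j | i) y
    · simp only [p, Sum.elim_inl]
      calc N (T j y) ≤ b * ‖T j y‖ := (hab _).2
        _ ≤ b * (‖T j‖ * ‖y‖) := by gcongr; exact (T j).le_opNorm y
        _ ≤ b * ((∑ j, ‖T j‖) * ‖y‖) := by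
            gcongr
            exact Finset.single_le_sum (f := fun j => ‖T j‖) (fun _ _ => norm_nonneg _)
              (Finset.mem_univ j)
        _ ≤ (b * (∑ j, ‖T j‖) + ∑ i, ‖g i‖) * ‖y‖ := by
            have : 0 ≤ (∑ i, ‖g i‖) * ‖y‖ := by positivity
            nlinarith
    · simp only [p, Sum.elim_inr]
      calc |g i y| ≤ ‖g i‖ * ‖y‖ := (g i).le_opNorm y
        _ ≤ (∑ i, ‖g i‖) * ‖y‖ := by
            gcongr
            exact Finset.single_le_sum (f := fun i => ‖g i‖) (fun _ _ => norm_nonneg _)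
              (Finset.mem_univ i)
        _ ≤ (b * (∑ j, ‖T j‖) + ∑ i, ‖g i‖) * ‖y‖ := by
            have : 0 ≤ b * (∑ j, ‖T j‖) * ‖y‖ := by positivity
            nlinarith
  obtain ⟨B, hB0, hB⟩ := hpbd
  let M : Y → ℝ := fun y => Real.sqrt (∑ s, p s y ^ 2)
  have hMsq : ∀ y, M y ^ 2 = ∑ s, p s y ^ 2 := fun y =>
    Real.sq_sqrt (Finset.sum_nonneg fun s _ => sq_nonneg _)
  have hM0 : ∀ y, 0 ≤ M y := fun y => Real.sqrt_nonneg _
  have hpM : ∀ s y, p s y ≤ M y := by
    intro s y
    apply Real.le_sqrt_of_sq_le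
    exact Finset.single_le_sum (f := fun s => p s y ^ 2) (fun _ _ => sq_nonneg _)
      (Finset.mem_univ s)
  refine ⟨M, ?_, ?_, ?_, ?_⟩
  · intro y z
    exact sqrt_minkowski _ _ _ (fun s => hp0 s _) (fun s => hpadd s y z)
  · intro c y
    have : ∑ s, p s (c • y) ^ 2 = |c| ^ 2 * ∑ s, p s y ^ 2 := by
      rw [Finset.mul_sum]
      exact Finset.sum_congr rfl fun s _ => by rw [hpsmul, mul_pow]
    show Real.sqrt _ = |c| * Real.sqrt _
    rw [this, Real.sqrt_mul (by positivity), Real.sqrt_sq (abs_nonneg c)]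
  · -- equivalence of norms
    set D : ℝ := (|C| + 1) * ((1 / a) * k + d + 1) with hD
    have hDpos : 0 < D := by positivity
    refine ⟨1 / D, (k + d + 1) * (B + 1), by positivity, by positivity, ?_⟩
    intro y
    constructor
    · rw [div_mul_eq_mul_div, one_mul, div_le_iff₀ hDpos]
      have h1 : ∑ j, ‖T j y‖ ≤ (k : ℝ) * ((1 / a) * M y) := by
        have : ∀ j ∈ (Finset.univ : Finset (Fin k)), ‖T j y‖ ≤ (1 / a) * M y := by
          intro j _
          have h2 := (hab (T j y)).1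
          have h3 := hpM (Sum.inl j) y
          simp only [p, Sum.elim_inl] at h3
          rw [div_mul_eq_mul_div, one_mul, le_div_iff₀ ha]
          linarith
        have h4 := Finset.sum_le_card_nsmul _ _ _ this
        simpa [nsmul_eq_mul] using h4
      have h2 : ∑ i, |g i y| ≤ (d : ℝ) * M y := by
        have : ∀ i ∈ (Finset.univ : Finset (Fin d)), |g i y| ≤ M y := by
          intro i _
          have h3 := hpM (Sum.inr i) y
          simpa only [p, Sum.elim_inr] using h3
        have h4 := Finset.sum_le_card_nsmul _ _ _ this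
        simpa [nsmul_eq_mul] using h4
      have hs0 : 0 ≤ ∑ j, ‖T j y‖ + ∑ i, |g i y| := by positivity
      calc ‖y‖ ≤ C * (∑ j, ‖T j y‖ + ∑ i, |g i y|) := hC y
        _ ≤ |C| * (∑ j, ‖T j y‖ + ∑ i, |g i y|) := by gcongr; exact le_abs_self C
        _ ≤ |C| * ((k : ℝ) * ((1 / a) * M y) + (d : ℝ) * M y) := by gcongr
        _ ≤ (|C| + 1) * (((1 / a) * k + d + 1) * M y) := by
            have e : (k : ℝ) * ((1 / a) * M y) + (d : ℝ) * M y = ((1 / a) * k + d) * M y := by ring
            rw [e]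
            have h5 : 0 ≤ ((1 / a) * k + d) * M y := by
              have := hM0 y
              positivity
            have h6 := hM0 y
            have h7 := abs_nonneg C
            nlinarith [mul_nonneg h7 h6]
        _ = M y * D := by rw [hD]; ring
    · have h1 : M y ≤ ∑ s, p s y := by
        apply Real.sqrt_le_iff.2
        refine ⟨Finset.sum_nonneg fun s _ => hp0 s y, ?_⟩
        exact Finset.sum_sq_le_sq_sum_of_nonneg (fun s _ => hp0 s y)
      have h2 : ∑ s, p s y ≤ ((k + d : ℕ) : ℝ) * (B * ‖y‖) := by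
        have := Finset.sum_le_card_nsmul (Finset.univ : Finset (Fin k ⊕ Fin d))
          (fun s => p s y) (B * ‖y‖) (fun s _ => hB s y)
        simpa [nsmul_eq_mul] using this
      push_cast at h2
      have h3 : 0 ≤ B * ‖y‖ := by positivity
      have h4 : 0 ≤ ‖y‖ := norm_nonneg y
      have h5 : (0 : ℝ) ≤ k + d := by positivity
      nlinarith [mul_nonneg h5 h4]
  · -- local uniform rotundity
    intro y u hu
    have key : ∀ s n, 0 ≤ 2 * p s y ^ 2 + 2 * p s (u n) ^ 2 - p s (y + u n) ^ 2 := by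
      intro s n
      have h1 := hpadd s y (u n)
      have h2 := hp0 s (y + u n)
      nlinarith [sq_nonneg (p s y - p s (u n))]
    have hsum : ∀ n, 2 * M y ^ 2 + 2 * M (u n) ^ 2 - M (y + u n) ^ 2 =
        ∑ s, (2 * p s y ^ 2 + 2 * p s (u n) ^ 2 - p s (y + u n) ^ 2) := by
      intro n
      rw [hMsq, hMsq, hMsq, Finset.sum_sub_distrib, Finset.sum_add_distrib, Finset.mul_sum,
        Finset.mul_sum]
    have hs : ∀ s, Tendsto (fun n => 2 * p s y ^ 2 + 2 * p s (u n) ^ 2 - p s (y + u n) ^ 2)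
        atTop (𝓝 0) := by
      intro s
      refine squeeze_zero (fun n => key s n) (fun n => ?_) hu
      rw [hsum n]
      exact Finset.single_le_sum
        (f := fun s => 2 * p s y ^ 2 + 2 * p s (u n) ^ 2 - p s (y + u n) ^ 2)
        (fun s _ => key s n) (Finset.mem_univ s)
    have hps : ∀ s, Tendsto (fun n => p s (u n - y)) atTop (𝓝 0) := by
      rintro (j | i)
      · have h1 := hs (Sum.inl j)
        simp only [p, Sum.elim_inl, map_add] at h1
        have h2 := hlur (T j y) (fun n => T j (u n)) h1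
        simpa only [p, Sum.elim_inl, map_sub] using h2
      · have h1 := hs (Sum.inr i)
        simp only [p, Sum.elim_inr, map_add, sq_abs] at h1
        have h2 : Tendsto (fun n => (g i (u n - y)) ^ 2) atTop (𝓝 0) := by
          refine h1.congr fun n => ?_
          rw [map_sub]; ring
        have h3 := (Real.continuous_sqrt.tendsto 0).comp h2
        rw [Real.sqrt_zero] at h3
        refine h3.congr fun n => ?_
        simp only [Function.comp, p, Sum.elim_inr]
        exact Real.sqrt_sq_eq_abs _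
    have h1 : Tendsto (fun n => ∑ s, p s (u n - y) ^ 2) atTop (𝓝 0) := by
      have : Tendsto (fun n => ∑ s, p s (u n - y) ^ 2) atTop
          (𝓝 (∑ s : Fin k ⊕ Fin d, (0 : ℝ) ^ 2)) :=
        tendsto_finsetSum _ fun s _ => (hps s).pow 2
      simpa using this
    have h2 := (Real.continuous_sqrt.tendsto 0).comp h1
    rw [Real.sqrt_zero] at h2
    exact h2

/-- Transfer from a subspace `Z` which contains the common kernel of finitely many functionals. -/
theorem lur_of_subspace {k d : ℕ} (Z : Submodule ℝ Y) (g : Fin d → Y →L[ℝ] ℝ)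
    (hZ : ∀ y, (∀ i, g i y = 0) → y ∈ Z) (N : Fin k → Z →L[ℝ] X) (C : ℝ)
    (hN : ∀ z : Z, ‖z‖ ≤ C * ∑ j, ‖N j z‖) (hX : LURdata X) : LURdata Y := by
  let G : Y →L[ℝ] (Fin d → ℝ) := ContinuousLinearMap.pi g
  -- a linear section over the (finite-dimensional) range
  obtain ⟨s, hs⟩ := G.toLinearMap.rangeRestrict.exists_rightInverse_of_surjective
    (LinearMap.range_rangeRestrict _)
  have hs' : ∀ r : LinearMap.range G.toLinearMap, G (s r) = r := by
    intro r
    have := LinearMap.congr_fun hs r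
    simpa using congrArg Subtype.val this
  let S : LinearMap.range G.toLinearMap →L[ℝ] Y := LinearMap.toContinuousLinearMap s
  let Gr : Y →L[ℝ] LinearMap.range G.toLinearMap := G.codRestrict _ (fun y => ⟨y, rfl⟩)
  have hker : ∀ y, y - S (Gr y) ∈ Z := by
    intro y
    apply hZ
    intro i
    have h1 : G (S (Gr y)) = G y := hs' (Gr y)
    have h2 := congrFun h1 i
    simp only [G, ContinuousLinearMap.coe_pi'] at h2
    rw [map_sub, h2, sub_self]
  let P : Y →L[ℝ] Z := ((ContinuousLinearMap.id ℝ Y) - S.comp Gr).codRestrict Z (fun y => hker y)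
  have hP : ∀ y, (P y : Y) = y - S (Gr y) := fun y => rfl
  have hgnorm : ∀ y, ‖Gr y‖ ≤ ∑ i, |g i y| := by
    intro y
    have : ‖Gr y‖ = ‖G y‖ := rfl
    rw [this, pi_norm_le_iff_of_nonneg (by positivity)]
    intro i
    exact Finset.single_le_sum (f := fun i => |g i y|) (fun _ _ => abs_nonneg _)
      (Finset.mem_univ i)
  refine lur_of_maps (fun j => (N j).comp P) g (|C| + ‖S‖) ?_ hX
  intro y
  have h1 : ‖y‖ ≤ ‖(P y : Y)‖ + ‖S (Gr y)‖ := by
    have : y = (P y : Y) + S (Gr y) := by rw [hP]; abel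
    calc ‖y‖ = ‖(P y : Y) + S (Gr y)‖ := by rw [← this]
      _ ≤ _ := norm_add_le _ _
  have h2 : ‖(P y : Y)‖ ≤ |C| * ∑ j, ‖N j (P y)‖ := by
    refine (hN (P y)).trans ?_
    gcongr
    exact le_abs_self C
  have h3 : ‖S (Gr y)‖ ≤ ‖S‖ * ∑ i, |g i y| :=
    (S.le_opNorm _).trans (by gcongr; exact hgnorm y)
  have h4 : 0 ≤ ∑ j, ‖N j (P y)‖ := by positivity
  have h5 : 0 ≤ ∑ i, |g i y| := by positivity
  have h6 : ∀ j, ((N j).comp P) y = N j (P y) := fun j => rfl
  simp only [h6]
  have h7 := abs_nonneg C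
  have h8 := norm_nonneg S
  nlinarith [mul_nonneg h7 h5, mul_nonneg h8 h4]

end Pool.Agent.H41.LurTransfer
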